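import Pool.Agent.Helper81.XP.StA
import Pool.Agent.Helper81.XP.StB
import Pool.Agent.Helper81.XP.Pj

/-! Ping-pong from valuations. -/

namespace Pool.Agent.Helper38.XP

open Pool.Agent.Helper81.XP
open scoped Pointwise LinearAlgebra.Projectivization

variable {K : Type} [Field K]

/-! ### transport by conjugation -/

theorem ppk_conj {Γ Y : Type} [Group Γ] [MulAction Γ Y] (c g h : Γ)
    (hP : P4 Y (c * g * c⁻¹) (c * h * c⁻¹)) : P4 Y g h := by
  obtain ⟨U1, U2, U3, U4, d12, d13, d14, d23, d24, d34, h1, h2, h3, h4⟩ := hP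
  have key : ∀ (k : Γ) (A B : Set Y), (∀ y, y ∉ A → (c * k * c⁻¹) • y ∈ B) →
      ∀ y, y ∉ (fun y => c • y) ⁻¹' A → k • y ∈ (fun y => c • y) ⁻¹' B := by
    intro k A B hAB y hy
    have := hAB (c • y) hy
    rw [smul_smul, inv_mul_cancel_right, mul_smul] at this
    exact this
  have hg : ∀ k : Γ, (c * k * c⁻¹)⁻¹ = c * k⁻¹ * c⁻¹ := by intro k; group
  rw [hg] at h2 h4
  exact ⟨_, _, _, _, d12.preimage _, d13.preimage _, d14.preimage _, d23.preimage _,
    d24.preimage _, d34.preimage _, key g U2 U1 h1, key g⁻¹ U1 U2 h2, key h U4 U3 h3,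
    key h⁻¹ U3 U4 h4⟩

/-! ### homogeneous sets of vectors -/

/-- homogeneous sets -/
def ppkHom (S : Set (Fin 2 → K)) : Prop := ∀ (a : K) (w : Fin 2 → K), a ≠ 0 → (a • w ∈ S ↔ w ∈ S)

/-- the set of points defined by a set of vectors -/
def ppkU (S : Set (Fin 2 → K)) : Set (Pt K) := {ξ | ξ.rep ∈ S}

theorem ppkU_mk {S : Set (Fin 2 → K)} (hS : ppkHom S) (w : Fin 2 → K) (hw : w ≠ 0) :
    (Projectivization.mk K w hw ∈ ppkU S) ↔ w ∈ S := by
  obtain ⟨a, ha⟩ := Projectivization.exists_smul_eq_mk_rep K w hw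
  change (Projectivization.mk K w hw).rep ∈ S ↔ w ∈ S
  rw [← ha]
  exact hS (a : K) w a.ne_zero

theorem ppkU_smul {S T : Set (Fin 2 → K)} (hT : ppkHom T) (g : SL K)
    (h : ∀ w : Fin 2 → K, w ∉ S → (g : Matrix (Fin 2) (Fin 2) K).mulVec w ∈ T) :
    ∀ ξ : Pt K, ξ ∉ ppkU S → g • ξ ∈ ppkU T := by
  intro ξ hξ
  rw [← ξ.mk_rep, smul_pt, ppkU_mk hT]
  exact h _ hξ

theorem ppkU_disjoint {S T : Set (Fin 2 → K)} (h : ∀ w : Fin 2 → K, w ≠ 0 → w ∈ S → w ∉ T) :
    Disjoint (ppkU S) (ppkU T) := by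
  rw [Set.disjoint_left]
  intro ξ h1 h2
  exact h _ ξ.rep_nonzero h1 h2

/-! ### the diagonal case -/

section

variable (O : ValuationSubring K)

/-- large first coordinate -/
def ppkBig (L a b : O.ValueGroup) (f0 f1 : (Fin 2 → K) → K) : Set (Fin 2 → K) :=
  {w | L * (b * O.valuation (f1 w)) < a * O.valuation (f0 w)}

/-- small first coordinate -/
def ppkSmall (L a b : O.ValueGroup) (f0 f1 : (Fin 2 → K) → K) : Set (Fin 2 → K) :=
  {w | L * (a * O.valuation (f0 w)) ≤ b * O.valuation (f1 w)}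

variable {O}

theorem ppkBig_hom {L a b : O.ValueGroup} {f0 f1 : (Fin 2 → K) → K}
    (h0 : ∀ (c : K) w, f0 (c • w) = c * f0 w) (h1 : ∀ (c : K) w, f1 (c • w) = c * f1 w) :
    ppkHom (ppkBig O L a b f0 f1) := by
  intro c w hc
  have hc' : (0 : O.ValueGroup) < O.valuation c :=
    zero_lt_iff.2 ((Valuation.ne_zero_iff _).2 hc)
  change L * (b * O.valuation (f1 (c • w))) < a * O.valuation (f0 (c • w)) ↔
    L * (b * O.valuation (f1 w)) < a * O.valuation (f0 w)
  rw [h0, h1, map_mul, map_mul]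
  have e1 : L * (b * (O.valuation c * O.valuation (f1 w))) =
      O.valuation c * (L * (b * O.valuation (f1 w))) := by
    simp only [mul_comm, mul_left_comm]
  have e2 : a * (O.valuation c * O.valuation (f0 w)) =
      O.valuation c * (a * O.valuation (f0 w)) := by
    simp only [mul_left_comm]
  rw [e1, e2]
  exact mul_lt_mul_iff_right₀ hc'

theorem ppkSmall_hom {L a b : O.ValueGroup} {f0 f1 : (Fin 2 → K) → K}
    (h0 : ∀ (c : K) w, f0 (c • w) = c * f0 w) (h1 : ∀ (c : K) w, f1 (c • w) = c * f1 w) :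
    ppkHom (ppkSmall O L a b f0 f1) := by
  intro c w hc
  have hc' : (0 : O.ValueGroup) < O.valuation c :=
    zero_lt_iff.2 ((Valuation.ne_zero_iff _).2 hc)
  change L * (a * O.valuation (f0 (c • w))) ≤ b * O.valuation (f1 (c • w)) ↔
    L * (a * O.valuation (f0 w)) ≤ b * O.valuation (f1 w)
  rw [h0, h1, map_mul, map_mul]
  have e1 : L * (a * (O.valuation c * O.valuation (f0 w))) =
      O.valuation c * (L * (a * O.valuation (f0 w))) := by
    simp only [mul_comm, mul_left_comm]
  have e2 : b * (O.valuation c * O.valuation (f1 w)) =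
      O.valuation c * (b * O.valuation (f1 w)) := by
    simp only [mul_left_comm]
  rw [e1, e2]
  exact mul_le_mul_iff_right₀ hc'

/-- `Small` complement is mapped to `Big` by a move multiplying `f0` by `c` and `f1` by `1/c` -/
theorem ppk_move1 {L a b : O.ValueGroup} {f0 f1 : (Fin 2 → K) → K} {c : K} (hc : c ≠ 0)
    (hL : O.valuation c = L) (g : (Fin 2 → K) → (Fin 2 → K))
    (h0 : ∀ w, f0 (g w) = c * f0 w) (h1 : ∀ w, f1 (g w) = c⁻¹ * f1 w) :
    ∀ w, w ∉ ppkSmall O L a b f0 f1 → g w ∈ ppkBig O L a b f0 f1 := by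
  intro w hw
  have hw' : b * O.valuation (f1 w) < L * (a * O.valuation (f0 w)) := not_le.1 hw
  change L * (b * O.valuation (f1 (g w))) < a * O.valuation (f0 (g w))
  rw [h0, h1, map_mul, map_mul, map_inv₀, hL]
  have hL0 : L ≠ 0 := by rw [← hL]; exact (Valuation.ne_zero_iff _).2 hc
  have e1 : L * (b * (L⁻¹ * O.valuation (f1 w))) = b * O.valuation (f1 w) := by
    rw [mul_left_comm b, ← mul_assoc, mul_inv_cancel₀ hL0, one_mul]
  rw [e1, mul_left_comm a]
  exact hw'

theorem ppk_move2 {L a b : O.ValueGroup} {f0 f1 : (Fin 2 → K) → K} {c : K} (hc : c ≠ 0)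
    (hL : O.valuation c = L) (g : (Fin 2 → K) → (Fin 2 → K))
    (h0 : ∀ w, f0 (g w) = c⁻¹ * f0 w) (h1 : ∀ w, f1 (g w) = c * f1 w) :
    ∀ w, w ∉ ppkBig O L a b f0 f1 → g w ∈ ppkSmall O L a b f0 f1 := by
  intro w hw
  have hw' : a * O.valuation (f0 w) ≤ L * (b * O.valuation (f1 w)) := not_lt.1 hw
  change L * (a * O.valuation (f0 (g w))) ≤ b * O.valuation (f1 (g w))
  rw [h0, h1, map_mul, map_mul, map_inv₀, hL]
  have hL0 : L ≠ 0 := by rw [← hL]; exact (Valuation.ne_zero_iff _).2 hc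
  have e1 : L * (a * (L⁻¹ * O.valuation (f0 w))) = a * O.valuation (f0 w) := by
    rw [mul_left_comm a, ← mul_assoc, mul_inv_cancel₀ hL0, one_mul]
  rw [e1, mul_left_comm b]
  exact hw'

theorem ppk_disj {L a b : O.ValueGroup} {f0 f1 : (Fin 2 → K) → K} (hL : 1 ≤ L) :
    ∀ w, w ∈ ppkBig O L a b f0 f1 → w ∉ ppkSmall O L a b f0 f1 := by
  intro w h1 h2
  have h1' : L * (b * O.valuation (f1 w)) < a * O.valuation (f0 w) := h1
  have h2' : L * (a * O.valuation (f0 w)) ≤ b * O.valuation (f1 w) := h2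
  have h3 : a * O.valuation (f0 w) ≤ L * (a * O.valuation (f0 w)) := le_mul_of_one_le_left' hL
  have h4 : b * O.valuation (f1 w) ≤ L * (b * O.valuation (f1 w)) := le_mul_of_one_le_left' hL
  exact absurd (h1'.trans_le (h3.trans (h2'.trans h4))) (lt_irrefl _)

theorem ppk_theta {L' : O.ValueGroup} (h1 : 1 ≤ L') {A B : K} (hAB : A - B = 1)
    (h : 1 ≤ L' * (O.valuation A * O.valuation B)) :
    O.valuation B ≤ L' * O.valuation A ∧ O.valuation A ≤ L' * O.valuation B ∧
      0 < O.valuation A ∧ 0 < O.valuation B := by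
  have hA : O.valuation A ≠ 0 := by
    intro h0; rw [h0, zero_mul, mul_zero] at h; exact absurd h (not_le.2 zero_lt_one)
  have hB : O.valuation B ≠ 0 := by
    intro h0; rw [h0, mul_zero, mul_zero] at h; exact absurd h (not_le.2 zero_lt_one)
  refine ⟨?_, ?_, zero_lt_iff.2 hA, zero_lt_iff.2 hB⟩
  · rcases lt_trichotomy (O.valuation A) (O.valuation B) with hlt | heq | hgt
    · have e : O.valuation B = 1 := by
        rw [← Valuation.map_sub_eq_of_lt_right _ hlt, hAB, map_one]
      rw [e] at h ⊢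
      rw [mul_one] at h
      exact h
    · rw [heq]; exact le_mul_of_one_le_left' h1
    · exact hgt.le.trans (le_mul_of_one_le_left' h1)
  · rcases lt_trichotomy (O.valuation A) (O.valuation B) with hlt | heq | hgt
    · exact hlt.le.trans (le_mul_of_one_le_left' h1)
    · rw [heq]; exact le_mul_of_one_le_left' h1
    · have e : O.valuation A = 1 := by
        rw [← Valuation.map_sub_eq_of_lt_left _ hgt, hAB, map_one]
      rw [e] at h ⊢
      rw [one_mul] at h
      exact h

/-- values of `z0, z1` on `Big` -/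
theorem ppk_D1 {L' L : O.ValueGroup} (hL' : 1 ≤ L') (hL : L' < L) {p q r t w0 w1 : K}
    (hBA : O.valuation (q * r) ≤ L' * O.valuation (p * t)) (hp : 0 < O.valuation (p * t))
    (hw : L * (O.valuation p * O.valuation w1) < O.valuation r * O.valuation w0) :
    O.valuation (t * w0 - q * w1) = O.valuation t * O.valuation w0 ∧
      O.valuation (p * w1 - r * w0) = O.valuation r * O.valuation w0 ∧ 0 < O.valuation w0 ∧
        0 < O.valuation r := by
  have h165 : (1 : O.ValueGroup) ≤ L := hL'.trans hL.le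
  have hrw : 0 < O.valuation r * O.valuation w0 := lt_of_le_of_lt zero_le hw
  have hr : 0 < O.valuation r := zero_lt_iff.2 fun h => by
    rw [h, zero_mul] at hrw; exact absurd hrw (lt_irrefl _)
  have hw0 : 0 < O.valuation w0 := zero_lt_iff.2 fun h => by
    rw [h, mul_zero] at hrw; exact absurd hrw (lt_irrefl _)
  have ht : 0 < O.valuation t := zero_lt_iff.2 fun h => by
    rw [map_mul, h, mul_zero] at hp; exact absurd hp (lt_irrefl _)
  refine ⟨?_, ?_, hw0, hr⟩
  · have h1 : O.valuation (q * w1) < O.valuation (t * w0) := by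
      rw [map_mul, map_mul]
      refine lt_of_mul_lt_mul_left' (a := O.valuation r) ?_
      calc O.valuation r * (O.valuation q * O.valuation w1)
          = O.valuation (q * r) * O.valuation w1 := by rw [map_mul]; ac_rfl
        _ ≤ L' * O.valuation (p * t) * O.valuation w1 := mul_le_mul_left hBA _
        _ ≤ L * O.valuation (p * t) * O.valuation w1 :=
            mul_le_mul_left (mul_le_mul_left hL.le _) _
        _ = O.valuation t * (L * (O.valuation p * O.valuation w1)) := by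
            rw [map_mul]; ac_rfl
        _ < O.valuation t * (O.valuation r * O.valuation w0) := (mul_lt_mul_iff_right₀ ht).2 hw
        _ = O.valuation r * (O.valuation t * O.valuation w0) := by ac_rfl
    rw [Valuation.map_sub_eq_of_lt_left _ h1, map_mul]
  · have h1 : O.valuation (p * w1) < O.valuation (r * w0) := by
      rw [map_mul, map_mul]
      exact lt_of_le_of_lt (le_mul_of_one_le_left' h165) hw
    rw [Valuation.map_sub_eq_of_lt_right _ h1, map_mul]

/-- values of `z0, z1` on `Small` -/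
theorem ppk_D2 {L' L : O.ValueGroup} (hL' : 1 ≤ L') (hL : L' < L) {p q r t w0 w1 : K}
    (hAB : O.valuation (p * t) ≤ L' * O.valuation (q * r)) (hp : 0 < O.valuation (p * t))
    (hq : 0 < O.valuation (q * r)) (hne : w0 ≠ 0 ∨ w1 ≠ 0)
    (hw : L * (O.valuation r * O.valuation w0) ≤ O.valuation p * O.valuation w1) :
    O.valuation (t * w0 - q * w1) = O.valuation q * O.valuation w1 ∧
      O.valuation (p * w1 - r * w0) = O.valuation p * O.valuation w1 ∧ 0 < O.valuation w1 := by
  have hL0 : (0 : O.ValueGroup) < L := lt_of_le_of_lt zero_le hL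
  have hL'0 : (0 : O.ValueGroup) < L' := lt_of_lt_of_le zero_lt_one hL'
  have h165 : (1 : O.ValueGroup) < L := lt_of_le_of_lt hL' hL
  have hpp : 0 < O.valuation p := zero_lt_iff.2 fun h => by
    rw [map_mul, h, zero_mul] at hp; exact absurd hp (lt_irrefl _)
  have htt : 0 < O.valuation t := zero_lt_iff.2 fun h => by
    rw [map_mul, h, mul_zero] at hp; exact absurd hp (lt_irrefl _)
  have hqq : 0 < O.valuation q := zero_lt_iff.2 fun h => by
    rw [map_mul, h, zero_mul] at hq; exact absurd hq (lt_irrefl _)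
  have hrr : 0 < O.valuation r := zero_lt_iff.2 fun h => by
    rw [map_mul, h, mul_zero] at hq; exact absurd hq (lt_irrefl _)
  have hw1 : 0 < O.valuation w1 := by
    refine zero_lt_iff.2 fun h => ?_
    rw [h, mul_zero] at hw
    have h0 : O.valuation w0 ≠ 0 := by
      rcases hne with h' | h'
      · exact (Valuation.ne_zero_iff _).2 h'
      · exact absurd h ((Valuation.ne_zero_iff _).2 h')
    exact absurd hw (not_le.2 (mul_pos hL0 (mul_pos hrr (zero_lt_iff.2 h0))))
  refine ⟨?_, ?_, hw1⟩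
  · have h1 : O.valuation (t * w0) < O.valuation (q * w1) := by
      rw [map_mul, map_mul]
      refine lt_of_mul_lt_mul_left' (a := L' * O.valuation r) ?_
      by_cases h0 : O.valuation w0 = 0
      · rw [h0, mul_zero, mul_zero]
        exact mul_pos (mul_pos hL'0 hrr) (mul_pos hqq hw1)
      calc L' * O.valuation r * (O.valuation t * O.valuation w0)
          < L * O.valuation r * (O.valuation t * O.valuation w0) :=
            (mul_lt_mul_iff_left₀ (mul_pos htt (zero_lt_iff.2 h0))).2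
              ((mul_lt_mul_iff_left₀ hrr).2 hL)
        _ = O.valuation t * (L * (O.valuation r * O.valuation w0)) := by ac_rfl
        _ ≤ O.valuation t * (O.valuation p * O.valuation w1) := mul_le_mul_right hw _
        _ = O.valuation (p * t) * O.valuation w1 := by rw [map_mul]; ac_rfl
        _ ≤ L' * O.valuation (q * r) * O.valuation w1 := mul_le_mul_left hAB _
        _ = L' * O.valuation r * (O.valuation q * O.valuation w1) := by
            rw [map_mul]; ac_rfl
    rw [Valuation.map_sub_eq_of_lt_right _ h1, map_mul]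
  · have h1 : O.valuation (r * w0) < O.valuation (p * w1) := by
      rw [map_mul, map_mul]
      by_cases h0 : O.valuation w0 = 0
      · rw [h0, mul_zero]
        exact mul_pos hpp hw1
      refine lt_of_lt_of_le ?_ hw
      calc O.valuation r * O.valuation w0 = 1 * (O.valuation r * O.valuation w0) :=
            (one_mul _).symm
        _ < L * (O.valuation r * O.valuation w0) :=
            (mul_lt_mul_iff_left₀ (mul_pos hrr (zero_lt_iff.2 h0))).2 h165
    rw [Valuation.map_sub_eq_of_lt_left _ h1, map_mul]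

end

/-! ### matrices -/

theorem ppk_trace (X s : SL K) (m n p q r t : K)
    (hX : (X : Matrix (Fin 2) (Fin 2) K) = !![m, 0; 0, n])
    (hs : (s : Matrix (Fin 2) (Fin 2) K) = !![p, q; r, t]) :
    tr (ct X (s * X * s⁻¹)) - 2 = (m - n) ^ 4 * (p * t) * (q * r) := by
  have h1 : m * n = 1 := by
    have := X.det_coe
    rw [hX, Matrix.det_fin_two_of] at this
    linear_combination this
  have h2 : p * t - q * r = 1 := by
    have := s.det_coe
    rw [hs, Matrix.det_fin_two_of] at this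
    exact this
  have e : ct X (s * X * s⁻¹) = X * (s * X * s⁻¹) * X⁻¹ * (s * X⁻¹ * s⁻¹) := by
    simp only [ct]; group
  rw [e, tr]
  simp only [Matrix.SpecialLinearGroup.coe_mul, Matrix.SpecialLinearGroup.coe_inv, hX, hs,
    Matrix.adjugate_fin_two_of, Matrix.mul_fin_two, Matrix.trace_fin_two_of]
  have h3 : (2 : K) = 2 * (m * n) ^ 2 * (p * t - q * r) ^ 2 := by rw [h1, h2]; ring
  rw [sub_eq_iff_eq_add]
  conv_rhs => rw [h3]
  ring

theorem ppk_pow (X : SL K) (m n : K) (hX : (X : Matrix (Fin 2) (Fin 2) K) = !![m, 0; 0, n])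
    (k : ℕ) : ((X ^ k : SL K) : Matrix (Fin 2) (Fin 2) K) = !![m ^ k, 0; 0, n ^ k] := by
  induction k with
  | zero => simp [Matrix.one_fin_two]
  | succ k ih =>
    rw [pow_succ, Matrix.SpecialLinearGroup.coe_mul, ih, hX, Matrix.mul_fin_two]
    simp [pow_succ]

theorem ppk_mulVec0 (a b c d : K) (w : Fin 2 → K) :
    (!![a, b; c, d] : Matrix (Fin 2) (Fin 2) K).mulVec w 0 = a * w 0 + b * w 1 := by
  simp [Matrix.mulVec, dotProduct, Fin.sum_univ_two]

theorem ppk_mulVec1 (a b c d : K) (w : Fin 2 → K) :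
    (!![a, b; c, d] : Matrix (Fin 2) (Fin 2) K).mulVec w 1 = c * w 0 + d * w 1 := by
  simp [Matrix.mulVec, dotProduct, Fin.sum_univ_two]

/-- the diagonal case -/
theorem ppk_diag (O : ValuationSubring K) (X s : SL K) (m n p q r t : K) (k : ℕ)
    (hX : (X : Matrix (Fin 2) (Fin 2) K) = !![m, 0; 0, n])
    (hs : (s : Matrix (Fin 2) (Fin 2) K) = !![p, q; r, t]) (L' L : O.ValueGroup)
    (hL' : 1 ≤ L') (hL : L' < L) (hk : O.valuation (m ^ k) = L)
    (hb : 1 ≤ L' * (O.valuation (p * t) * O.valuation (q * r))) :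
    P4 (Pt K) (X ^ k) (s * X ^ k * s⁻¹) := by
  have hmn : m * n = 1 := by
    have := X.det_coe
    rw [hX, Matrix.det_fin_two_of] at this
    linear_combination this
  have hst : p * t - q * r = 1 := by
    have := s.det_coe
    rw [hs, Matrix.det_fin_two_of] at this
    exact this
  obtain ⟨hBA, hAB, hA0, hB0⟩ := ppk_theta hL' hst hb
  have hL1 : 1 < L := lt_of_le_of_lt hL' hL
  have hL0 : 0 < L := lt_trans zero_lt_one hL1
  have hc : m ^ k ≠ 0 := pow_ne_zero _ (left_ne_zero_of_mul_eq_one hmn)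
  have hci : n ^ k = (m ^ k)⁻¹ := eq_inv_of_mul_eq_one_left (by
    rw [← mul_pow, mul_comm n m, hmn, one_pow])
  -- coordinates
  have hsi : ((s⁻¹ : SL K) : Matrix (Fin 2) (Fin 2) K) = !![t, -q; -r, p] := by
    rw [Matrix.SpecialLinearGroup.coe_inv, hs, Matrix.adjugate_fin_two_of]
  obtain ⟨z, hz⟩ : ∃ z : (Fin 2 → K) → Fin 2 → K, z = fun w =>
    ((s⁻¹ : SL K) : Matrix (Fin 2) (Fin 2) K).mulVec w := ⟨_, rfl⟩
  have hz0 : ∀ w, z w 0 = t * w 0 - q * w 1 := by
    intro w; rw [hz]; beta_reduce; rw [hsi, ppk_mulVec0]; ring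
  have hz1 : ∀ w, z w 1 = p * w 1 - r * w 0 := by
    intro w; rw [hz]; beta_reduce; rw [hsi, ppk_mulVec1]; ring
  have hzs : ∀ (c : K) (w : Fin 2 → K) (i : Fin 2), z (c • w) i = c * z w i := by
    intro c w i; rw [hz]; beta_reduce; rw [Matrix.mulVec_smul, Pi.smul_apply, smul_eq_mul]
  -- the moves
  have hXk := ppk_pow X m n hX k
  have hXki : (((X ^ k)⁻¹ : SL K) : Matrix (Fin 2) (Fin 2) K) = !![n ^ k, 0; 0, m ^ k] := by
    rw [Matrix.SpecialLinearGroup.coe_inv, hXk, Matrix.adjugate_fin_two_of, neg_zero]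
  have hconj : ∀ (g : SL K) (w : Fin 2 → K),
      z (((s * g * s⁻¹ : SL K) : Matrix (Fin 2) (Fin 2) K).mulVec w) =
        (g : Matrix (Fin 2) (Fin 2) K).mulVec (z w) := by
    intro g w
    rw [hz]
    beta_reduce
    rw [Matrix.mulVec_mulVec, Matrix.mulVec_mulVec, ← Matrix.SpecialLinearGroup.coe_mul,
      ← Matrix.SpecialLinearGroup.coe_mul]
    have : s⁻¹ * (s * g * s⁻¹) = g * s⁻¹ := by group
    rw [this]
  have hinv : (s * X ^ k * s⁻¹)⁻¹ = s * (X ^ k)⁻¹ * s⁻¹ := by group
  have hB1 := ppkBig_hom (O := O) (L := L) (a := O.valuation r) (b := O.valuation p)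
    (f0 := fun w => w 0) (f1 := fun w => w 1) (fun _ _ => rfl) (fun _ _ => rfl)
  have hS1 := ppkSmall_hom (O := O) (L := L) (a := O.valuation r) (b := O.valuation p)
    (f0 := fun w => w 0) (f1 := fun w => w 1) (fun _ _ => rfl) (fun _ _ => rfl)
  have hB2 := ppkBig_hom (O := O) (L := L) (a := O.valuation r) (b := O.valuation t)
    (f0 := fun w => z w 0) (f1 := fun w => z w 1) (fun c w => hzs c w 0) (fun c w => hzs c w 1)
  have hS2 := ppkSmall_hom (O := O) (L := L) (a := O.valuation r) (b := O.valuation t)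
    (f0 := fun w => z w 0) (f1 := fun w => z w 1) (fun c w => hzs c w 0) (fun c w => hzs c w 1)
  have hne : ∀ w : Fin 2 → K, w ≠ 0 → w 0 ≠ 0 ∨ w 1 ≠ 0 := by
    intro w hw
    by_contra h
    push Not at h
    apply hw
    funext i
    fin_cases i
    · exact h.1
    · exact h.2
  rw [map_mul] at hA0 hB0
  refine ⟨ppkU (ppkBig O L (O.valuation r) (O.valuation p) (fun w => w 0) (fun w => w 1)),
    ppkU (ppkSmall O L (O.valuation r) (O.valuation p) (fun w => w 0) (fun w => w 1)),
    ppkU (ppkBig O L (O.valuation r) (O.valuation t) (fun w => z w 0) (fun w => z w 1)),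
    ppkU (ppkSmall O L (O.valuation r) (O.valuation t) (fun w => z w 0) (fun w => z w 1)),
    ppkU_disjoint (fun w _ h => ppk_disj hL1.le w h), ppkU_disjoint ?_, ppkU_disjoint ?_,
    ppkU_disjoint ?_, ppkU_disjoint ?_, ppkU_disjoint (fun w _ h => ppk_disj hL1.le w h),
    ?_, ?_, ?_, ?_⟩
  · intro w _ h h'
    obtain ⟨e0, e1, p0, p1⟩ := ppk_D1 hL' hL hBA (by rw [map_mul]; exact hA0) h
    have h2 : L * (O.valuation t * O.valuation (z w 1)) < O.valuation r * O.valuation (z w 0) := h'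
    rw [hz0, hz1, e0, e1] at h2
    refine absurd (h2.trans_le ?_) (lt_irrefl _)
    calc O.valuation r * (O.valuation t * O.valuation (w 0))
        = O.valuation t * (O.valuation r * O.valuation (w 0)) := mul_left_comm _ _ _
      _ ≤ L * (O.valuation t * (O.valuation r * O.valuation (w 0))) :=
        le_mul_of_one_le_left' hL1.le
  · intro w _ h h'
    obtain ⟨e0, e1, p0, p1⟩ := ppk_D1 hL' hL hBA (by rw [map_mul]; exact hA0) h
    have h2 : L * (O.valuation r * O.valuation (z w 0)) ≤ O.valuation t * O.valuation (z w 1) := h'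
    rw [hz0, hz1, e0, e1, mul_left_comm (O.valuation t)] at h2
    have ht : 0 < O.valuation t := pos_of_mul_pos_right hA0 zero_le
    have h3 : O.valuation r * (O.valuation t * O.valuation (w 0)) <
        L * (O.valuation r * (O.valuation t * O.valuation (w 0))) := by
      conv_lhs => rw [← one_mul (O.valuation r * (O.valuation t * O.valuation (w 0)))]
      exact (mul_lt_mul_iff_left₀ (mul_pos p1 (mul_pos ht p0))).2 hL1
    exact absurd (h3.trans_le h2) (lt_irrefl _)
  · intro w hw h h'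
    obtain ⟨e0, e1, p0⟩ := ppk_D2 hL' hL hAB (by rw [map_mul]; exact hA0)
      (by rw [map_mul]; exact hB0) (hne w hw) h
    have h2 : L * (O.valuation t * O.valuation (z w 1)) < O.valuation r * O.valuation (z w 0) := h'
    rw [hz0, hz1, e0, e1] at h2
    have h3 : L * O.valuation (p * t) < O.valuation (q * r) := by
      refine lt_of_mul_lt_mul_left' (a := O.valuation (w 1)) ?_
      calc O.valuation (w 1) * (L * O.valuation (p * t))
          = L * (O.valuation t * (O.valuation p * O.valuation (w 1))) := by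
            rw [map_mul]; ac_rfl
        _ < O.valuation r * (O.valuation q * O.valuation (w 1)) := h2
        _ = O.valuation (w 1) * O.valuation (q * r) := by rw [map_mul]; ac_rfl
    exact absurd ((h3.trans_le hBA).trans_le (mul_le_mul_left hL.le _)) (lt_irrefl _)
  · intro w hw h h'
    obtain ⟨e0, e1, p0⟩ := ppk_D2 hL' hL hAB (by rw [map_mul]; exact hA0)
      (by rw [map_mul]; exact hB0) (hne w hw) h
    have h2 : L * (O.valuation r * O.valuation (z w 0)) ≤ O.valuation t * O.valuation (z w 1) := h'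
    rw [hz0, hz1, e0, e1] at h2
    have h3 : L * O.valuation (q * r) ≤ O.valuation (p * t) := by
      refine le_of_mul_le_mul_right ?_ p0
      calc L * O.valuation (q * r) * O.valuation (w 1)
          = L * (O.valuation r * (O.valuation q * O.valuation (w 1))) := by
            rw [map_mul]; ac_rfl
        _ ≤ O.valuation t * (O.valuation p * O.valuation (w 1)) := h2
        _ = O.valuation (p * t) * O.valuation (w 1) := by rw [map_mul]; ac_rfl
    have h4 : L' * O.valuation (q * r) < L * O.valuation (q * r) := by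
      refine (mul_lt_mul_iff_left₀ ?_).2 hL
      rw [map_mul]; exact hB0
    exact absurd ((h4.trans_le h3).trans_le hAB) (lt_irrefl _)
  · refine ppkU_smul hB1 _ (ppk_move1 hc hk
      (fun w => ((X ^ k : SL K) : Matrix (Fin 2) (Fin 2) K).mulVec w) ?_ ?_)
    · intro w; beta_reduce; rw [hXk, ppk_mulVec0, zero_mul, add_zero]
    · intro w; beta_reduce; rw [hXk, ppk_mulVec1, zero_mul, zero_add, hci]
  · refine ppkU_smul hS1 _ (ppk_move2 hc hk
      (fun w => (((X ^ k)⁻¹ : SL K) : Matrix (Fin 2) (Fin 2) K).mulVec w) ?_ ?_)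
    · intro w; beta_reduce; rw [hXki, ppk_mulVec0, zero_mul, add_zero, hci]
    · intro w; beta_reduce; rw [hXki, ppk_mulVec1, zero_mul, zero_add]
  · refine ppkU_smul hB2 _ (ppk_move1 hc hk
      (fun w => ((s * X ^ k * s⁻¹ : SL K) : Matrix (Fin 2) (Fin 2) K).mulVec w) ?_ ?_)
    · intro w; beta_reduce; rw [hconj, hXk, ppk_mulVec0, zero_mul, add_zero]
    · intro w; beta_reduce; rw [hconj, hXk, ppk_mulVec1, zero_mul, zero_add, hci]
  · rw [hinv]
    refine ppkU_smul hS2 _ (ppk_move2 hc hk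
      (fun w => ((s * (X ^ k)⁻¹ * s⁻¹ : SL K) : Matrix (Fin 2) (Fin 2) K).mulVec w) ?_ ?_)
    · intro w; beta_reduce; rw [hconj, hXki, ppk_mulVec0, zero_mul, add_zero, hci]
    · intro w; beta_reduce; rw [hconj, hXki, ppk_mulVec1, zero_mul, zero_add]

/-! ### the general case -/

theorem ppk_v2 (O : ValuationSubring K) : O.valuation (2 : K) ≤ 1 := by
  rw [O.valuation_le_one_iff]
  have : (2 : K) = 1 + 1 := by norm_num
  rw [this]
  exact O.add_mem _ _ O.one_mem O.one_mem

/-- diagonalisation with the large eigenvalue first -/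
theorem ppk_diagonalise [IsAlgClosed K] (hFIX : ST_FIX) (O : ValuationSubring K) (X : SL K)
    (hX : 1 < O.valuation (tr X)) : ∃ (c : SL K) (m n : K),
      ((c * X * c⁻¹ : SL K) : Matrix (Fin 2) (Fin 2) K) = !![m, 0; 0, n] ∧
        O.valuation m = O.valuation (tr X) ∧ O.valuation n < O.valuation m := by
  have h2 := ppk_v2 O
  have hne : ∀ a : K, O.valuation a ≤ 1 → tr X ≠ a := by
    intro a ha h
    rw [h] at hX
    exact absurd hX (not_lt.2 ha)
  have h1 : X ≠ 1 := by
    rintro rfl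
    refine hne 2 h2 ?_
    rw [tr, Matrix.SpecialLinearGroup.coe_one, Matrix.trace_one]
    simp
  have h1' : X ≠ -1 := by
    rintro rfl
    refine hne (-2) (by rw [Valuation.map_neg]; exact h2) ?_
    rw [tr_eq]
    simp
    norm_num
  obtain ⟨ξ1, ξ2, hfix, heq⟩ := hFIX K X h1 h1'
  have hne12 : ξ1 ≠ ξ2 := by
    intro h
    have h4 := heq.1 h
    have h5 : (tr X - 2) * (tr X + 2) = 0 := by linear_combination h4
    rcases mul_eq_zero.1 h5 with h6 | h6
    · exact hne 2 h2 (sub_eq_zero.1 h6)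
    · exact hne (-2) (by rw [Valuation.map_neg]; exact h2) (eq_neg_of_add_eq_zero_left h6)
  have main : ∀ ζ1 ζ2 : Pt K, ζ1 ≠ ζ2 → X • ζ1 = ζ1 → X • ζ2 = ζ2 → ∃ (c : SL K) (m n : K),
      ((c * X * c⁻¹ : SL K) : Matrix (Fin 2) (Fin 2) K) = !![m, 0; 0, n] ∧
        c • ζ1 = e1 K ∧ c • ζ2 = e2 K := by
    intro ζ1 ζ2 hζ f1 f2
    obtain ⟨c, hc1, hc2⟩ := exists_move ζ1 ζ2 hζ
    have g1 : (c * X * c⁻¹) • e1 K = e1 K := by
      rw [← hc1, conj_smul_eq_iff, f1]
    have g2 : (c * X * c⁻¹) • e2 K = e2 K := by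
      rw [← hc2, conj_smul_eq_iff, f2]
    rw [smul_e1_eq_e1] at g1
    rw [smul_e2_eq_e2] at g2
    refine ⟨c, ((c * X * c⁻¹ : SL K) : Matrix (Fin 2) (Fin 2) K) 0 0,
      ((c * X * c⁻¹ : SL K) : Matrix (Fin 2) (Fin 2) K) 1 1, ?_, hc1, hc2⟩
    have h := Matrix.eta_fin_two ((c * X * c⁻¹ : SL K) : Matrix (Fin 2) (Fin 2) K)
    rw [g1, g2] at h
    exact h
  -- the eigenvalues of a diagonal conjugate
  have hev : ∀ (c : SL K) (m n : K),
      ((c * X * c⁻¹ : SL K) : Matrix (Fin 2) (Fin 2) K) = !![m, 0; 0, n] →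
        m + n = tr X ∧ m * n = 1 := by
    intro c m n h
    constructor
    · rw [← tr_conj c X, tr, h, Matrix.trace_fin_two_of]
    · have := (c * X * c⁻¹).det_coe
      rw [h, Matrix.det_fin_two_of] at this
      linear_combination this
  obtain ⟨c, m, n, hc, hc1, hc2⟩ := main ξ1 ξ2 hne12 ((hfix ξ1).2 (Or.inl rfl))
    ((hfix ξ2).2 (Or.inr rfl))
  obtain ⟨hs, hp⟩ := hev c m n hc
  rcases lt_trichotomy (O.valuation m) (O.valuation n) with hlt | he | hgt
  · obtain ⟨c', m', n', hc', hc1', hc2'⟩ := main ξ2 ξ1 hne12.symm ((hfix ξ2).2 (Or.inr rfl))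
      ((hfix ξ1).2 (Or.inl rfl))
    obtain ⟨hs', hp'⟩ := hev c' m' n' hc'
    have h7 : (m' - m) * (m' - n) = 0 := by linear_combination m' * hs' - m' * hs - hp' + hp
    have h8 : m' = n ∧ n' = m ∨ m' = m ∧ n' = n := by
      rcases mul_eq_zero.1 h7 with h | h
      · right
        have : m' = m := sub_eq_zero.1 h
        exact ⟨this, by linear_combination hs' - hs - this⟩
      · left
        have : m' = n := sub_eq_zero.1 h
        exact ⟨this, by linear_combination hs' - hs - this⟩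
    rcases h8 with ⟨h9, h10⟩ | ⟨h9, h10⟩
    · refine ⟨c', m', n', hc', ?_, ?_⟩
      · rw [← hs', h9, h10, add_comm n m, Valuation.map_add_eq_of_lt_right _ hlt]
      · rw [h9, h10]; exact hlt
    · -- then c' c⁻¹ swaps the axes and conjugates the diagonal matrix to itself
      exfalso
      have e : (c' * c⁻¹) * (c * X * c⁻¹) * (c' * c⁻¹)⁻¹ = c' * X * c'⁻¹ := by group
      have e' : (c' * c⁻¹) * (c * X * c⁻¹) = (c' * X * c'⁻¹) * (c' * c⁻¹) := by
        rw [← e]; group
      have s1 : (c' * c⁻¹) • e1 K = e2 K := by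
        rw [← hc1, mul_smul, inv_smul_smul, hc2']
      rw [smul_e1_eq_e2] at s1
      have s2 : (c' * c⁻¹) • e2 K = e1 K := by
        rw [← hc2, mul_smul, inv_smul_smul, hc1']
      rw [smul_e2_eq_e1] at s2
      obtain ⟨d, hd⟩ : ∃ d : SL K, d = c' * c⁻¹ := ⟨_, rfl⟩
      rw [← hd] at e' s1 s2
      have e2' := congrArg (fun g : SL K => (g : Matrix (Fin 2) (Fin 2) K) 0 1) e'
      simp only [Matrix.SpecialLinearGroup.coe_mul] at e2'
      rw [Matrix.SpecialLinearGroup.coe_mul, Matrix.SpecialLinearGroup.coe_mul] at hc hc'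
      rw [hc, hc', h9, h10] at e2'
      simp only [Matrix.mul_apply, Fin.sum_univ_two, Matrix.of_apply, Matrix.cons_val_zero,
        Matrix.cons_val_one, s1, s2, mul_zero, zero_mul, add_zero, zero_add] at e2'
      have hdet := det_eq d
      rw [s1, zero_mul, zero_sub] at hdet
      have h11 : (d : Matrix (Fin 2) (Fin 2) K) 0 1 ≠ 0 := by
        intro h; rw [h] at hdet; simp at hdet
      have h12 : n = m := by
        have : (d : Matrix (Fin 2) (Fin 2) K) 0 1 * (n - m) = 0 := by linear_combination e2'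
        exact sub_eq_zero.1 ((mul_eq_zero.1 this).resolve_left h11)
      rw [h12] at hlt
      exact absurd hlt (lt_irrefl _)
  · exfalso
    have h9 : O.valuation m * O.valuation n = 1 := by rw [← map_mul, hp, map_one]
    rw [← he] at h9
    have h10 : O.valuation m ≤ 1 := by
      by_contra h
      push Not at h
      exact absurd h9 (one_lt_mul'' h h).ne'
    have h11 : O.valuation (tr X) ≤ 1 := by
      rw [← hs]
      exact (Valuation.map_add _ m n).trans (max_le h10 (he ▸ h10))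
    exact absurd hX (not_lt.2 h11)
  · refine ⟨c, m, n, hc, ?_, hgt⟩
    rw [← hs, Valuation.map_add_eq_of_lt_left _ hgt]

theorem ppk_e2 {Γ : Type} [Group Γ] (c s X : Γ) (k : ℕ) : c * (s * X ^ k * s⁻¹) * c⁻¹ =
      (c * s * c⁻¹) * (c * X * c⁻¹) ^ k * (c * s * c⁻¹)⁻¹ := by
  rw [conj_pow]
  generalize X ^ k = Y
  group

theorem ppk_le (O : ValuationSubring K) (u a b : O.ValueGroup) (i j k : ℕ)
    (h : k = i + j) (h1 : 1 ≤ u ^ i * a * b * u ^ j) : 1 ≤ u ^ k * (a * b) := by
  refine h1.trans (le_of_eq ?_)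
  rw [h, pow_add]
  generalize u ^ i = x
  generalize u ^ j = y
  ac_rfl

theorem ppk_gen [IsAlgClosed K] (hFIX : ST_FIX) (O : ValuationSubring K) (X s : SL K) (j l : ℕ)
    (hjl : 4 + j < l) (hX : 1 < O.valuation (tr X))
    (hκ : 1 ≤ O.valuation (tr (ct X (s * X * s⁻¹)) - 2) * O.valuation (tr X) ^ j) :
    P4 (Pt K) (X ^ l) (s * X ^ l * s⁻¹) := by
  obtain ⟨c, m, n, hc, hm, hn⟩ := ppk_diagonalise hFIX O X hX
  refine ppk_conj c _ _ ?_
  have e1' : c * X ^ l * c⁻¹ = (c * X * c⁻¹) ^ l := (conj_pow).symm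
  rw [ppk_e2 c s X l, e1']
  have e3 : ct (c * X * c⁻¹) ((c * s * c⁻¹) * (c * X * c⁻¹) * (c * s * c⁻¹)⁻¹) =
      c * ct X (s * X * s⁻¹) * c⁻¹ := by
    have e4 : (c * s * c⁻¹) * (c * X * c⁻¹) * (c * s * c⁻¹)⁻¹ = c * (s * X * s⁻¹) * c⁻¹ := by
      group
    rw [e4, ct_conj]
  obtain ⟨X', hX'⟩ : ∃ X' : SL K, X' = c * X * c⁻¹ := ⟨_, rfl⟩
  obtain ⟨s', hs'⟩ : ∃ s' : SL K, s' = c * s * c⁻¹ := ⟨_, rfl⟩
  rw [← hX'] at hc e3 ⊢
  rw [← hs'] at e3 ⊢
  have hk : tr (ct X' (s' * X' * s'⁻¹)) = tr (ct X (s * X * s⁻¹)) := by rw [e3, tr_conj]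
  rw [← hk, ppk_trace X' s' m n _ _ _ _ hc (Matrix.eta_fin_two _), ← hm] at hκ
  rw [← hm] at hX
  have hmn : O.valuation (m - n) = O.valuation m := Valuation.map_sub_eq_of_lt_left _ hn
  refine ppk_diag O X' s' m n _ _ _ _ l hc (Matrix.eta_fin_two _) (O.valuation m ^ (4 + j))
    (O.valuation m ^ l) (one_le_pow₀ hX.le) (pow_lt_pow_right₀ hX hjl)
    (map_pow _ _ _) ?_
  have h7 : ∀ A B : K, O.valuation ((m - n) ^ 4 * A * B) =
      O.valuation m ^ 4 * O.valuation A * O.valuation B := by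
    intro A B
    rw [Valuation.map_mul, Valuation.map_mul, Valuation.map_pow, hmn]
  rw [h7] at hκ
  exact ppk_le O _ _ _ 4 j _ rfl hκ

set_option maxRecDepth 20000 in
theorem st_PPK (hFIX : ST_FIX) : ST_PPK := fun K _ _ O X s hX hκ =>
  ppk_gen hFIX O X s 160 165 (by norm_num) hX hκ

end Pool.Agent.Helper38.XP
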