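import Pool.Agent.Helper81.XP.StB

/-! Valuations at infinity of the field of algebraic functions. -/

namespace Pool.Agent.Helper38.XP

open Pool.Agent.Helper81.XP Polynomial

theorem vai_injective (k : Type) [Field k] :
    Function.Injective (algebraMap (Polynomial k) (Om k)) := by
  rw [IsScalarTower.algebraMap_eq (Polynomial k) (RatFunc k) (Om k)]
  exact (algebraMap (RatFunc k) (Om k)).injective.comp (IsFractionRing.injective (Polynomial k)
    (RatFunc k))

theorem vai_aeval (k : Type) [Field k] (q : Polynomial k) :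
    aeval (tt k) q = algebraMap (Polynomial k) (Om k) q := by
  unfold tt
  rw [aeval_algebraMap_apply, aeval_X_left_apply]

theorem vai_transcendental (k : Type) [Field k] : ¬ IsIntegral k (tt k) := by
  intro h
  obtain ⟨p, hp, h0⟩ := h.isAlgebraic
  rw [vai_aeval] at h0
  exact hp (vai_injective k (by rw [h0, map_zero]))

theorem vai_exists (k : Type) [Field k] : ∃ O : ValuationSubring (Om k), AtInf O := by
  have h1 : tt k ∉ (integralClosure k (Om k)).toSubring := vai_transcendental k
  haveI : IsIntegrallyClosedIn (integralClosure k (Om k)).toSubring (Om k) :=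
    inferInstanceAs (IsIntegrallyClosedIn (integralClosure k (Om k)) (Om k))
  obtain ⟨V, hV, hV2⟩ := Subring.exists_le_valuationSubring_of_isIntegrallyClosedIn h1
  exact ⟨V, fun c => hV ((integralClosure k (Om k)).algebraMap_mem c), hV2⟩

theorem vai_const {k : Type} [Field k] {O : ValuationSubring (Om k)}
    (hO : ∀ c : k, algebraMap k (Om k) c ∈ O) (c : k) (hc : c ≠ 0) :
    O.valuation (algebraMap k (Om k) c) = 1 := by
  refine le_antisymm ((O.valuation_le_one_iff _).2 (hO c)) ?_
  have h1 : O.valuation (algebraMap k (Om k) c⁻¹) ≤ 1 := (O.valuation_le_one_iff _).2 (hO _)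
  have h2 : O.valuation (algebraMap k (Om k) c) * O.valuation (algebraMap k (Om k) c⁻¹) = 1 := by
    rw [← map_mul, ← map_mul, mul_inv_cancel₀ hc, map_one, map_one]
  calc (1 : O.ValueGroup) = O.valuation (algebraMap k (Om k) c) *
        O.valuation (algebraMap k (Om k) c⁻¹) := h2.symm
    _ ≤ O.valuation (algebraMap k (Om k) c) * 1 := mul_le_mul_right h1 _
    _ = _ := mul_one _

theorem vai_poly {k : Type} [Field k] {O : ValuationSubring (Om k)} (hO : AtInf O)
    (q : Polynomial k) (hq : q ≠ 0) :
    O.valuation (algebraMap (Polynomial k) (Om k) q) = O.valuation (tt k) ^ q.natDegree := by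
  have h1 : 1 < O.valuation (tt k) := not_le.1 fun h => hO.2 ((O.valuation_le_one_iff _).1 h)
  have h0 : (0 : O.ValueGroup) < O.valuation (tt k) := lt_of_le_of_lt zero_le' h1
  rw [← vai_aeval, aeval_eq_sum_range, Finset.sum_range_succ]
  have hl : O.valuation (q.coeff q.natDegree • tt k ^ q.natDegree) =
      O.valuation (tt k) ^ q.natDegree := by
    rw [Algebra.smul_def, map_mul, map_pow, vai_const hO.1 _ (by
      rw [coeff_natDegree]; exact leadingCoeff_ne_zero.2 hq), one_mul]
  have hs : O.valuation (∑ i ∈ Finset.range q.natDegree, q.coeff i • tt k ^ i) <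
      O.valuation (tt k) ^ q.natDegree := by
    refine Valuation.map_sum_lt _ (pow_ne_zero _ h0.ne') fun i hi => ?_
    rw [Algebra.smul_def, map_mul, map_pow]
    refine lt_of_le_of_lt (mul_le_mul_left ((O.valuation_le_one_iff _).2 (hO.1 _)) _) ?_
    rw [one_mul]
    exact pow_lt_pow_right₀ h1 (Finset.mem_range.1 hi)
  rw [Valuation.map_add_eq_of_lt_right _ (by rw [hl]; exact hs), hl]

theorem st_VAI : ST_VAI := fun k _ => ⟨vai_exists k, fun O hO => ⟨vai_const hO.1,
  not_le.1 fun h => hO.2 ((O.valuation_le_one_iff _).1 h), vai_poly hO⟩⟩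

end Pool.Agent.Helper38.XP
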